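import Pool.Agent.N917.MB.Ind
import Pool.Agent.N917.MB.W4
import Pool.Agent.N917.K4.Asm
import Pool.Agent.N917.K4.Loc
import Pool.Agent.N917.K4.F
import Pool.Agent.N917.K4.NUM
import Pool.Agent.N917.K4.SET
import Pool.Agent.N917.K4.P
import Pool.Agent.N917.K4.GH
import Pool.Agent.N917.K4.SUM
import Pool.Agent.N917.K4.MOVE
import Pool.Agent.N917.K4.CNT
import Pool.Agent.N917.K4.MAX
import Pool.Agent.N917.K4.LOCG

/-!
MP_76b19e_co, Q1: the exact minimum number of copies of `K_{r+1}` in an `n`-vertex graph of maximum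
degree `k` which is not degree-majorized by an `r`-partite graph, for every `r` and all but finitely
many pairs `(n, k)`.

The definitions (`Admissible`, `minCliques`, ...) are those of the starting file
`Pool.Agent.Results.MP_76b19e_co.ForcedCliques`.
-/

namespace Pool.Agent.Results.MP_76b19e_co.ExactAllN

open Pool.Agent.Results.MP_76b19e_co.ForcedCliques
open Pool.Agent.N917

/-- The exponent `r - 1 - s`, where `s` is the largest number at most `r - 1` with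
`s (s + 1) / 2 ≤ t := n - 1 - r (n - k)`. -/
def expo (n k r : ℕ) : ℕ :=
  r - 1 - Nat.findGreatest (fun s => s * (s + 1) ≤ 2 * (n - 1 - r * (n - k))) (r - 1)

/-- the formula in terms of the maximal `s` -/
theorem main {n k r : ℕ} (hr : 2 ≤ r) (hk : k < n) (hdom : r * (n - k) + 1 ≤ n) {s : ℕ}
    (hs : s ≤ r - 1) (hst : s * (s + 1) ≤ 2 * (n - 1 - r * (n - k)))
    (hst2 : s = r - 1 ∨ 2 * (n - 1 - r * (n - k)) < (s + 1) * (s + 2))
    (h : r ≤ 3 ∨ r - 1 - s ≤ 1 ∨ 10 ^ 6 * r ^ 4 * (512 ^ r + (r + 1).factorial) ≤ n - k ∨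
      (s * (s + 1) = 2 * (n - 1 - r * (n - k)) ∧ 16 * r ^ 2 ≤ n - k ∧
        (s ≤ 1 ∨ (r + 1).factorial ≤ n - k))) :
    minCliques n k r = (n - k) ^ (r - 1 - s) := by
  have hsmall : r - 1 - s ≤ 1 → minCliques n k r = (n - k) ^ (r - 1 - s) :=
    ((ForcedCliques.result n k r hr).2 hk hdom s hs hst hst2).2.2
  rcases h with h | h | h | ⟨h1, h2, h3⟩
  · rcases Nat.lt_or_ge r 3 with h3 | h3
    · exact hsmall (by omega)
    · obtain rfl : r = 3 := by omega
      have hP : K4.S_PURE := K4.pure_of K4.t_SUM K4.t_MOVE K4.t_CNT (K4.t_MAX K4.t_F.1)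
        (K4.t_LOCG (K4.loc_of K4.t_F K4.t_NUM K4.t_P K4.t_SET K4.t_GH))
      exact (K4.final_of hP n k).2 hk hdom s hs hst hst2
  · exact hsmall h
  · refine MB.fin_expl hr (MB.ca MB.t_W4 r) ?_ hk h hdom hs hst hst2
    unfold MB.Q0
    have h1 : 1 ≤ r ^ 4 := Nat.one_le_pow _ _ (by omega)
    exact Nat.one_le_iff_ne_zero.2 (by positivity)
  · refine (KR.t_FIN (KR.blk_of KR.t_SUM KR.t_LAST KR.t_CRUDE KR.t_ID KR.t_MOVE KR.t_BUD KR.t_YF
      KR.t_CNT (KR.t_P1 KR.t_CRUDE KR.t_ID) (KR.t_NUMP KR.t_RL) KR.t_TR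
      (KR.t_FL1 KR.t_CRUDE KR.t_RL KR.t_BUD) (KR.t_FL2 KR.t_BUD))) n k r hr hk h2 s hs ?_ h3
    omega

/-- **Main result.**  Let `r ≥ 2`, `D = n - k`, `n ≥ r D + 1` (the range where such graphs exist).
1. The least number of copies of `K_{r+1}` in an `n`-vertex graph with maximum degree `k` that is
not degree-majorized by an `r`-partite graph is exactly `D ^ expo n k r` if `r ≤ 3`, or
`expo n k r ≤ 1`, or `D ≥ 10 ^ 6 r ^ 4 (512 ^ r + (r + 1)!)`, or if `t = s (s + 1) / 2` with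
`s ≤ 1`, `D ≥ 16 r ^ 2` or `s ≤ r - 1`, `D ≥ max (16 r ^ 2) (r + 1)!`.
2. So for every `r` the formula holds for all but finitely many pairs `(n, k)`. -/
theorem result :
    (∀ n k r : ℕ, 2 ≤ r → k < n → r * (n - k) + 1 ≤ n →
      (r ≤ 3 ∨ expo n k r ≤ 1 ∨ 10 ^ 6 * r ^ 4 * (512 ^ r + (r + 1).factorial) ≤ n - k ∨
        (16 * r ^ 2 ≤ n - k ∧ ∃ s : ℕ, s ≤ r - 1 ∧ s * (s + 1) = 2 * (n - 1 - r * (n - k)) ∧
          (s ≤ 1 ∨ (r + 1).factorial ≤ n - k))) →
      minCliques n k r = (n - k) ^ expo n k r) ∧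
    (∀ r : ℕ, 2 ≤ r → {p : ℕ × ℕ | p.2 < p.1 ∧ r * (p.1 - p.2) + 1 ≤ p.1 ∧
      minCliques p.1 p.2 r ≠ (p.1 - p.2) ^ expo p.1 p.2 r}.Finite) := by
  have key : ∀ n k r : ℕ, 2 ≤ r →
      let s := Nat.findGreatest (fun s => s * (s + 1) ≤ 2 * (n - 1 - r * (n - k))) (r - 1)
      s ≤ r - 1 ∧ s * (s + 1) ≤ 2 * (n - 1 - r * (n - k)) ∧
      (s = r - 1 ∨ 2 * (n - 1 - r * (n - k)) < (s + 1) * (s + 2)) := by
    intro n k r hr s
    have h1 : s ≤ r - 1 := Nat.findGreatest_le _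
    have h2 : s * (s + 1) ≤ 2 * (n - 1 - r * (n - k)) :=
      Nat.findGreatest_spec (P := fun s => s * (s + 1) ≤ 2 * (n - 1 - r * (n - k)))
        (m := 0) (Nat.zero_le _) (by simp)
    refine ⟨h1, h2, ?_⟩
    by_cases h3 : s = r - 1
    · exact Or.inl h3
    · right
      have h4 : ¬ ((s + 1) * (s + 1 + 1) ≤ 2 * (n - 1 - r * (n - k))) :=
        Nat.findGreatest_is_greatest
          (P := fun s => s * (s + 1) ≤ 2 * (n - 1 - r * (n - k))) (n := r - 1) (k := s + 1)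
          (Nat.lt_succ_self _) (by omega)
      exact Nat.lt_of_not_le h4
  have first : ∀ n k r : ℕ, 2 ≤ r → k < n → r * (n - k) + 1 ≤ n →
      (r ≤ 3 ∨ expo n k r ≤ 1 ∨ 10 ^ 6 * r ^ 4 * (512 ^ r + (r + 1).factorial) ≤ n - k ∨
        (16 * r ^ 2 ≤ n - k ∧ ∃ s : ℕ, s ≤ r - 1 ∧ s * (s + 1) = 2 * (n - 1 - r * (n - k)) ∧
          (s ≤ 1 ∨ (r + 1).factorial ≤ n - k))) →
      minCliques n k r = (n - k) ^ expo n k r := by
    intro n k r hr hk hdom h
    obtain ⟨h1, h2, h3⟩ := key n k r hr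
    refine main hr hk hdom h1 h2 h3 ?_
    rcases h with h | h | h | ⟨h4, s', h5, h6, h7⟩
    · exact Or.inl h
    · exact Or.inr (Or.inl h)
    · exact Or.inr (Or.inr (Or.inl h))
    · right; right; right
      set s := Nat.findGreatest (fun s => s * (s + 1) ≤ 2 * (n - 1 - r * (n - k))) (r - 1)
      have h8 : s' ≤ s := Nat.le_findGreatest h5 h6.le
      have h9 : s ≤ s' := by
        by_contra h10
        push Not at h10
        have : (s' + 1) * (s' + 1 + 1) ≤ s * (s + 1) := Nat.mul_le_mul (by omega) (by omega)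
        have h11 : (s' + 1) * (s' + 1 + 1) = s' * (s' + 1) + 2 * (s' + 1) := by ring
        omega
      have h10 : s = s' := le_antisymm h9 h8
      rw [h10]
      exact ⟨h6, h4, h7⟩
  refine ⟨first, ?_⟩
  intro r hr
  set M := 10 ^ 6 * r ^ 4 * (512 ^ r + (r + 1).factorial) with hM
  apply Set.Finite.subset
    ((Finset.range (r * M + 2 + r * r) ×ˢ Finset.range (r * M + 2 + r * r)).finite_toSet)
  rintro ⟨n, k⟩ ⟨h1, h2, h3⟩
  simp only at h1 h2 h3
  have hD : n - k < M := by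
    by_contra h4
    exact h3 (first n k r hr h1 h2 (Or.inr (Or.inr (Or.inl (by omega)))))
  have he : ¬ expo n k r ≤ 1 := fun h4 => h3 (first n k r hr h1 h2 (Or.inr (Or.inl h4)))
  obtain ⟨k1, k2, k3⟩ := key n k r hr
  unfold expo at he
  set s := Nat.findGreatest (fun s => s * (s + 1) ≤ 2 * (n - 1 - r * (n - k))) (r - 1)
  have h5 : 2 * (n - 1 - r * (n - k)) < (s + 1) * (s + 2) := by
    rcases k3 with k3 | k3
    · omega
    · exact k3
  have h6 : (s + 1) * (s + 2) ≤ r * r := Nat.mul_le_mul (by omega) (by omega)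
  have h7 : r * (n - k) ≤ r * M := Nat.mul_le_mul_left _ hD.le
  have h8 : n < r * M + 2 + r * r := by omega
  simp only [Finset.coe_product, Finset.coe_range, Set.mem_prod, Set.mem_Iio]
  exact ⟨h8, by omega⟩

end Pool.Agent.Results.MP_76b19e_co.ExactAllN
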